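import Pool.Agent.Helper58.SF.StN

/-!
# Project SF, module PCN: preimages of connected sets under monotone maps
-/

set_option autoImplicit false

namespace Pool.Agent.Helper6.SF

open Set Topology Pool.Agent.Helper13.TR Pool.Agent.Helper58.SF

theorem hPCN : StPCN := by
  intro X _ _ D f hD hf hfib C' hC' hpre
  rw [isPreconnected_closed_iff]
  intro F1 F2 h1 h2 hcov hn1 hn2
  have hc1 : IsCompact (D ∩ F1) := hD.inter_right h1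
  have hc2 : IsCompact (D ∩ F2) := hD.inter_right h2
  have hG1 : IsClosed (f '' (D ∩ F1)) := (hc1.image_of_continuousOn (hf.mono inter_subset_left)).isClosed
  have hG2 : IsClosed (f '' (D ∩ F2)) := (hc2.image_of_continuousOn (hf.mono inter_subset_left)).isClosed
  have hcov' : C' ⊆ f '' (D ∩ F1) ∪ f '' (D ∩ F2) := by
    intro v hv
    obtain ⟨x, hx, rfl⟩ := hC' hv
    rcases hcov ⟨hx, hv⟩ with h | h
    · exact Or.inl ⟨x, ⟨hx, h⟩, rfl⟩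
    · exact Or.inr ⟨x, ⟨hx, h⟩, rfl⟩
  have hm1 : (C' ∩ f '' (D ∩ F1)).Nonempty := by
    obtain ⟨x, ⟨hx, hxC⟩, hxF⟩ := hn1
    exact ⟨f x, hxC, x, ⟨hx, hxF⟩, rfl⟩
  have hm2 : (C' ∩ f '' (D ∩ F2)).Nonempty := by
    obtain ⟨x, ⟨hx, hxC⟩, hxF⟩ := hn2
    exact ⟨f x, hxC, x, ⟨hx, hxF⟩, rfl⟩
  obtain ⟨v, hvC, ⟨x1, ⟨hx1D, hx1F⟩, hx1v⟩, ⟨x2, ⟨hx2D, hx2F⟩, hx2v⟩⟩ :=
    isPreconnected_closed_iff.mp hpre _ _ hG1 hG2 hcov' hm1 hm2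
  have hsub : D ∩ f ⁻¹' {v} ⊆ D ∩ f ⁻¹' C' := by
    rintro x ⟨hx, hxv⟩
    refine ⟨hx, ?_⟩
    have : f x = v := hxv
    change f x ∈ C'
    rw [this]
    exact hvC
  obtain ⟨x, hx, hxF⟩ := isPreconnected_closed_iff.mp (hfib v) F1 F2 h1 h2 (hsub.trans hcov)
    ⟨x1, ⟨hx1D, hx1v⟩, hx1F⟩ ⟨x2, ⟨hx2D, hx2v⟩, hx2F⟩
  exact ⟨x, hsub hx, hxF⟩

end Pool.Agent.Helper6.SF
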